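import Mathlib

/-!
Incidences between Cartesian products in `ℝ^d × ℝ^d` and pointwise-intersecting families of
`d`-flats of bounded condition number: definitions.
-/

set_option autoImplicit false

namespace Pool.Agent.Helper60.PF

/-- Euclidean space of dimension `d`. -/
abbrev E (d : ℕ) : Type := EuclideanSpace ℝ (Fin d)

/-- A `d`-flat of `ℝ^d × ℝ^d`. -/
def IsFlat (d : ℕ) (Q : AffineSubspace ℝ (E d × E d)) : Prop :=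
  (Q : Set (E d × E d)).Nonempty ∧ Module.finrank ℝ Q.direction = d

/-- Any two distinct members of `F` meet in at most one point. -/
def PointwiseIntersecting {d : ℕ} (F : Finset (AffineSubspace ℝ (E d × E d))) : Prop :=
  ∀ Q₁ ∈ F, ∀ Q₂ ∈ F, Q₁ ≠ Q₂ → ((Q₁ : Set (E d × E d)) ∩ (Q₂ : Set (E d × E d))).Subsingleton

/-- `Q` is vertical (first coordinate constant), horizontal (second coordinate constant) or the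
second coordinate changes by between `t` and `κ t` times the change of the first one. -/
def WellConditioned {d : ℕ} (κ : ℝ) (Q : AffineSubspace ℝ (E d × E d)) : Prop :=
  (∀ p ∈ Q, ∀ q ∈ Q, p.1 = q.1) ∨ (∀ p ∈ Q, ∀ q ∈ Q, p.2 = q.2) ∨
  ∃ t : ℝ, 0 < t ∧ ∀ p ∈ Q, ∀ q ∈ Q,
    t * ‖p.1 - q.1‖ ≤ ‖p.2 - q.2‖ ∧ ‖p.2 - q.2‖ ≤ κ * t * ‖p.1 - q.1‖

open Classical in
/-- The number of incidences. -/
noncomputable def incidences {d : ℕ} (P : Finset (E d × E d))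
    (F : Finset (AffineSubspace ℝ (E d × E d))) : ℕ :=
  ((P ×ˢ F).filter (fun z => z.1 ∈ z.2)).card

section Abstract

variable {V : Type*} [NormedAddCommGroup V]

open Classical in
/-- Number of points of `A`, other than `o`, in the sector of `a` seen from `o`. -/
noncomputable def rk {N : ℕ} (c : V → Fin N) (A : Finset V) (o a : V) : ℕ :=
  (A.filter (fun x => x ≠ o ∧ c (x - o) = c (a - o) ∧ ‖x - o‖ ≤ ‖a - o‖)).card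

/-- Vectors of the same class have nearly the same direction. -/
def IsDir [NormedSpace ℝ V] {N : ℕ} (ε : ℝ) (c : V → Fin N) : Prop :=
  ∀ u w : V, u ≠ 0 → w ≠ 0 → c u = c w → ‖(‖u‖⁻¹ • u) - (‖w‖⁻¹ • w)‖ ≤ ε

end Abstract

/-- L1 -/
def Overlap : Prop := ∀ (d : ℕ) (X : Finset (E d)) (y : E d) (r : E d → ℝ),
  (∀ a ∈ X, ∀ b ∈ X, a ≠ b → r a ≤ ‖a - b‖ ∧ r b ≤ ‖a - b‖) →
  (∀ a ∈ X, ‖y - a‖ ≤ r a) → X.card ≤ 5 ^ d + 1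

/-- L2 -/
def Classes : Prop := ∀ (d : ℕ) (ε : ℝ), 0 < ε → ∃ (N : ℕ) (c : E d → Fin (N + 1)), IsDir ε c

/-- L3 -/
def SectorIn : Prop := ∀ (d N : ℕ) (ε κ t : ℝ) (c : E d → Fin N), IsDir ε c → 0 ≤ ε → 0 < t →
  ε * κ ≤ 1 → ∀ M : E d →ₗ[ℝ] E d, (∀ x, t * ‖x‖ ≤ ‖M x‖ ∧ ‖M x‖ ≤ κ * t * ‖x‖) →
  ∀ u w : E d, u ≠ 0 → w ≠ 0 → c (M w) = c (M u) → ‖M w‖ ≤ ‖M u‖ → ‖w - u‖ ≤ ‖u‖

open Classical in
/-- L4 -/
def FewClose : Prop := ∀ (d N : ℕ) (c : E d → Fin N) (A : Finset (E d)) (o : E d) (S : ℝ), 0 ≤ S →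
  ((A.filter (fun a => a ≠ o ∧ (rk c A o a : ℝ) ≤ S)).card : ℝ) ≤ N * S

open Classical in
/-- L5 -/
def PerFlat : Prop := ∀ (d N : ℕ) (ε κ t : ℝ) (c : E d → Fin N), IsDir ε c → 0 ≤ ε → 0 < t →
  1 ≤ κ → ε * κ ≤ 1 → ∀ M : E d →ₗ[ℝ] E d,
  (∀ x, t * ‖x‖ ≤ ‖M x‖ ∧ ‖M x‖ ≤ κ * t * ‖x‖) → ∀ (v : E d) (A B : Finset (E d)),
  2 ≤ (A.filter (fun a => M a + v ∈ B)).card →
  ((A.filter (fun a => M a + v ∈ B)).card : ℝ) / 2 ≤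
    (((A ×ˢ A).filter (fun z => z.1 ≠ z.2 ∧ M z.1 + v ∈ B ∧ M z.2 + v ∈ B ∧
      (rk c A z.1 z.2 : ℝ) * (A.filter (fun a => M a + v ∈ B)).card ≤ 4 * (5 ^ d + 1) * A.card ∧
      (rk c B (M z.1 + v) (M z.2 + v) : ℝ) * (A.filter (fun a => M a + v ∈ B)).card
        ≤ 4 * (5 ^ d + 1) * B.card)).card : ℝ)

/-- a well conditioned affine map `x ↦ M x + v` -/
def Well {d : ℕ} (κ : ℝ) (m : (E d →ₗ[ℝ] E d) × E d) : Prop :=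
  ∃ t : ℝ, 0 < t ∧ ∀ x, t * ‖x‖ ≤ ‖m.1 x‖ ∧ ‖m.1 x‖ ≤ κ * t * ‖x‖

open Classical in
/-- the points of `A` on the graph whose image is in `B` -/
noncomputable def onG {d : ℕ} (A B : Finset (E d)) (m : (E d →ₗ[ℝ] E d) × E d) :
    Finset (E d) := A.filter (fun a => m.1 a + m.2 ∈ B)

open Classical in
/-- L6 -/
def RichBound : Prop := ∀ (d : ℕ) (κ : ℝ), 1 ≤ κ → ∃ K : ℝ, 0 ≤ K ∧
  ∀ (G : Finset ((E d →ₗ[ℝ] E d) × E d)) (A B : Finset (E d)), (∀ m ∈ G, Well κ m) →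
  (∀ m ∈ G, ∀ m' ∈ G, m ≠ m' → ∀ a b : E d, m.1 a + m.2 = m'.1 a + m'.2 →
    m.1 b + m.2 = m'.1 b + m'.2 → a = b) →
  ∀ k : ℕ, 2 ≤ k → ((G.filter (fun m => k ≤ (onG A B m).card)).card : ℝ) * (k : ℝ) ^ 3 ≤
    K * ((A.card : ℝ) * B.card) ^ 2

open Classical in
/-- L7 -/
def Summation : Prop := ∀ (ι : Type) (G : Finset ι) (f : ι → ℕ) (K n : ℝ), 0 ≤ K → 0 ≤ n →
  (∀ k : ℕ, 2 ≤ k → ((G.filter (fun m => k ≤ f m)).card : ℝ) * (k : ℝ) ^ 3 ≤ K * n ^ 2) →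
  (∑ m ∈ G, (f m : ℝ)) ≤ (K + 1) * (n ^ (2 / 3 : ℝ) * (G.card : ℝ) ^ (2 / 3 : ℝ)) + G.card

/-- L8 -/
def FlatForm : Prop := ∀ (d : ℕ) (κ : ℝ) (Q : AffineSubspace ℝ (E d × E d)), IsFlat d Q →
  WellConditioned κ Q →
  (∃ a : E d, ∀ p : E d × E d, p ∈ Q ↔ p.1 = a) ∨ (∃ b : E d, ∀ p : E d × E d, p ∈ Q ↔ p.2 = b) ∨
  ∃ m : (E d →ₗ[ℝ] E d) × E d, Well κ m ∧ ∀ p : E d × E d, p ∈ Q ↔ p.2 = m.1 p.1 + m.2

/-- the result -/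
def Main : Prop := ∀ (d : ℕ) (κ : ℝ), ∃ C : ℝ, 0 < C ∧
  ∀ (A B : Finset (E d)) (F : Finset (AffineSubspace ℝ (E d × E d))), (∀ Q ∈ F, IsFlat d Q) →
  PointwiseIntersecting F → (∀ Q ∈ F, WellConditioned κ Q) →
  (incidences (A ×ˢ B) F : ℝ) ≤ C * (((A.card : ℝ) * B.card) ^ (2 / 3 : ℝ) *
    (F.card : ℝ) ^ (2 / 3 : ℝ) + (A.card : ℝ) * B.card + F.card)

end Pool.Agent.Helper60.PF
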