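import Pool.Agent.Helper60.PF.Defs

set_option autoImplicit false

namespace Pool.Agent.Helper60.PF

open Classical in
/-- points of `P` on `Q` -/
noncomputable def ptsOn {d : ℕ} (P : Finset (E d × E d)) (Q : AffineSubspace ℝ (E d × E d)) :
    Finset (E d × E d) := P.filter (fun p => p ∈ Q)

open Classical in
theorem incidences_eq {d : ℕ} (P : Finset (E d × E d))
    (F : Finset (AffineSubspace ℝ (E d × E d))) :
    incidences P F = ∑ Q ∈ F, (ptsOn P Q).card := by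
  unfold incidences ptsOn
  rw [Finset.card_filter, Finset.sum_product_right]
  apply Finset.sum_congr rfl
  intro Q _
  rw [Finset.card_filter]

open Classical in
/-- if the member through a point is unique, there are at most `|P|` incidences -/
theorem sum_ptsOn_le {d : ℕ} (P : Finset (E d × E d))
    (F : Finset (AffineSubspace ℝ (E d × E d)))
    (h : ∀ p ∈ P, ∀ Q ∈ F, ∀ Q' ∈ F, p ∈ Q → p ∈ Q' → Q = Q') :
    ∑ Q ∈ F, (ptsOn P Q).card ≤ P.card := by
  have hdis : (F : Set (AffineSubspace ℝ (E d × E d))).PairwiseDisjoint (ptsOn P) := by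
    intro Q hQ Q' hQ' hne
    rw [Function.onFun, Finset.disjoint_left]
    intro p hp hp'
    unfold ptsOn at hp hp'
    rw [Finset.mem_filter] at hp hp'
    exact hne (h p hp.1 Q hQ Q' hQ' hp.2 hp'.2)
  rw [← Finset.card_biUnion (fun Q hQ Q' hQ' hne => hdis hQ hQ' hne)]
  apply Finset.card_le_card
  intro p hp
  rw [Finset.mem_biUnion] at hp
  obtain ⟨Q, _, hp⟩ := hp
  unfold ptsOn at hp
  exact (Finset.mem_filter.mp hp).1

open Classical in
theorem ptsOn_graph {d : ℕ} (A B : Finset (E d)) (Q : AffineSubspace ℝ (E d × E d))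
    (m : (E d →ₗ[ℝ] E d) × E d) (h : ∀ p : E d × E d, p ∈ Q ↔ p.2 = m.1 p.1 + m.2) :
    (ptsOn (A ×ˢ B) Q).card = (onG A B m).card := by
  symm
  apply Finset.card_bij (fun a _ => (a, m.1 a + m.2))
  · intro a ha
    unfold onG at ha
    rw [Finset.mem_filter] at ha
    unfold ptsOn
    rw [Finset.mem_filter, Finset.mem_product]
    exact ⟨⟨ha.1, ha.2⟩, (h _).mpr rfl⟩
  · intro a _ b _ hab
    exact congrArg Prod.fst hab
  · intro p hp
    unfold ptsOn at hp
    rw [Finset.mem_filter, Finset.mem_product] at hp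
    obtain ⟨⟨hA, hB⟩, hQ⟩ := hp
    have h2 := (h p).mp hQ
    refine ⟨p.1, ?_, ?_⟩
    · unfold onG
      rw [Finset.mem_filter]
      exact ⟨hA, by rw [← h2]; exact hB⟩
    · rw [← h2]

theorem well_mono {d : ℕ} {κ κ' : ℝ} (hκ : κ ≤ κ') {m : (E d →ₗ[ℝ] E d) × E d}
    (h : Well κ m) : Well κ' m := by
  obtain ⟨t, ht, h⟩ := h
  refine ⟨t, ht, fun x => ⟨(h x).1, (h x).2.trans ?_⟩⟩
  have : 0 ≤ t * ‖x‖ := mul_nonneg ht.le (norm_nonneg _)
  nlinarith

open Classical in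
theorem main_of (hFF : FlatForm) (hRB : RichBound) (hSum : Summation) : Main := by
  intro d κ
  obtain ⟨K, hK0, hK⟩ := hRB d (max κ 1) (le_max_right _ _)
  refine ⟨K + 3, by linarith, ?_⟩
  intro A B F hflat hPI hW
  set n : ℝ := (A.card : ℝ) * B.card with hn
  have hn0 : 0 ≤ n := by positivity
  -- the three parts
  let PV : AffineSubspace ℝ (E d × E d) → Prop :=
    fun Q => ∃ a : E d, ∀ p : E d × E d, p ∈ Q ↔ p.1 = a
  let PH : AffineSubspace ℝ (E d × E d) → Prop :=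
    fun Q => ∃ b : E d, ∀ p : E d × E d, p ∈ Q ↔ p.2 = b
  let PG : AffineSubspace ℝ (E d × E d) → Prop :=
    fun Q => ∃ m : (E d →ₗ[ℝ] E d) × E d, Well κ m ∧
      ∀ p : E d × E d, p ∈ Q ↔ p.2 = m.1 p.1 + m.2
  have hsplit : ∑ Q ∈ F, (ptsOn (A ×ˢ B) Q).card ≤
      ∑ Q ∈ F.filter PV, (ptsOn (A ×ˢ B) Q).card + ∑ Q ∈ F.filter PH, (ptsOn (A ×ˢ B) Q).card +
      ∑ Q ∈ F.filter PG, (ptsOn (A ×ˢ B) Q).card := by
    rw [Finset.sum_filter, Finset.sum_filter, Finset.sum_filter, ← Finset.sum_add_distrib,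
      ← Finset.sum_add_distrib]
    apply Finset.sum_le_sum
    intro Q hQ
    rcases hFF d κ Q (hflat Q hQ) (hW Q hQ) with h | h | h
    · have h' : PV Q := h
      rw [if_pos h']
      omega
    · have h' : PH Q := h
      rw [if_pos h']
      omega
    · have h' : PG Q := h
      rw [if_pos h']
      omega
  have hV : ∑ Q ∈ F.filter PV, (ptsOn (A ×ˢ B) Q).card ≤ (A ×ˢ B).card := by
    apply sum_ptsOn_le
    intro p _ Q hQ Q' hQ' hp hp'
    obtain ⟨a, ha⟩ := (Finset.mem_filter.mp hQ).2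
    obtain ⟨a', ha'⟩ := (Finset.mem_filter.mp hQ').2
    ext q
    rw [ha q, ha' q, ← (ha p).mp hp, ← (ha' p).mp hp']
  have hH : ∑ Q ∈ F.filter PH, (ptsOn (A ×ˢ B) Q).card ≤ (A ×ˢ B).card := by
    apply sum_ptsOn_le
    intro p _ Q hQ Q' hQ' hp hp'
    obtain ⟨a, ha⟩ := (Finset.mem_filter.mp hQ).2
    obtain ⟨a', ha'⟩ := (Finset.mem_filter.mp hQ').2
    ext q
    rw [ha q, ha' q, ← (ha p).mp hp, ← (ha' p).mp hp']
  -- the graphs
  have hch : ∀ Q : AffineSubspace ℝ (E d × E d), ∃ m : (E d →ₗ[ℝ] E d) × E d, PG Q →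
      Well κ m ∧ ∀ p : E d × E d, p ∈ Q ↔ p.2 = m.1 p.1 + m.2 := by
    intro Q
    by_cases h : PG Q
    · obtain ⟨m, hm⟩ := h
      exact ⟨m, fun _ => hm⟩
    · exact ⟨0, fun h' => absurd h' h⟩
  choose φ hφ using hch
  have hinj : Set.InjOn φ (F.filter PG : Finset (AffineSubspace ℝ (E d × E d))) := by
    intro Q hQ Q' hQ' hQQ
    have h1 := (hφ Q (Finset.mem_filter.mp hQ).2).2
    have h2 := (hφ Q' (Finset.mem_filter.mp hQ').2).2
    ext q
    rw [h1 q, h2 q, hQQ]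
  have hG : ∑ Q ∈ F.filter PG, (ptsOn (A ×ˢ B) Q).card =
      ∑ m ∈ (F.filter PG).image φ, (onG A B m).card := by
    rw [Finset.sum_image hinj]
    apply Finset.sum_congr rfl
    intro Q hQ
    exact ptsOn_graph A B Q (φ Q) (hφ Q (Finset.mem_filter.mp hQ).2).2
  have hcard : ((F.filter PG).image φ).card ≤ F.card :=
    Finset.card_image_le.trans (Finset.card_filter_le _ _)
  have hrich := hK ((F.filter PG).image φ) A B (by
      intro m hm
      obtain ⟨Q, hQ, rfl⟩ := Finset.mem_image.mp hm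
      exact well_mono (le_max_left _ _) (hφ Q (Finset.mem_filter.mp hQ).2).1) (by
      intro m hm m' hm' hne a b ha hb
      obtain ⟨Q, hQ, rfl⟩ := Finset.mem_image.mp hm
      obtain ⟨Q', hQ', rfl⟩ := Finset.mem_image.mp hm'
      have h1 := (hφ Q (Finset.mem_filter.mp hQ).2).2
      have h2 := (hφ Q' (Finset.mem_filter.mp hQ').2).2
      have hQne : Q ≠ Q' := fun h => hne (by rw [h])
      have hss := hPI Q (Finset.mem_filter.mp hQ).1 Q' (Finset.mem_filter.mp hQ').1 hQne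
      have hx : ((a, (φ Q).1 a + (φ Q).2) : E d × E d) ∈
          ((Q : Set (E d × E d)) ∩ (Q' : Set (E d × E d))) :=
        ⟨(h1 _).mpr rfl, (h2 _).mpr ha⟩
      have hy : ((b, (φ Q).1 b + (φ Q).2) : E d × E d) ∈
          ((Q : Set (E d × E d)) ∩ (Q' : Set (E d × E d))) :=
        ⟨(h1 _).mpr rfl, (h2 _).mpr hb⟩
      exact congrArg Prod.fst (hss hx hy))
  have hfin := hSum _ ((F.filter PG).image φ) (fun m => (onG A B m).card) K n hK0 hn0 hrich
  have hnAB : ((A ×ˢ B).card : ℝ) = n := by rw [Finset.card_product]; push_cast; rfl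
  have hpow : n ^ (2 / 3 : ℝ) * (((F.filter PG).image φ).card : ℝ) ^ (2 / 3 : ℝ) ≤
      n ^ (2 / 3 : ℝ) * (F.card : ℝ) ^ (2 / 3 : ℝ) := by
    apply mul_le_mul_of_nonneg_left _ (Real.rpow_nonneg hn0 _)
    apply Real.rpow_le_rpow (Nat.cast_nonneg _) _ (by norm_num)
    exact_mod_cast hcard
  have hcardR : (((F.filter PG).image φ).card : ℝ) ≤ F.card := by exact_mod_cast hcard
  rw [incidences_eq]
  have htot : ((∑ Q ∈ F, (ptsOn (A ×ˢ B) Q).card : ℕ) : ℝ) ≤
      n + n + ∑ m ∈ (F.filter PG).image φ, ((onG A B m).card : ℝ) := by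
    have h1 : ((∑ Q ∈ F, (ptsOn (A ×ˢ B) Q).card : ℕ) : ℝ) ≤
        (((A ×ˢ B).card + (A ×ˢ B).card + ∑ m ∈ (F.filter PG).image φ, (onG A B m).card : ℕ) : ℝ)
        := by
      rw [hG] at hsplit
      exact_mod_cast hsplit.trans (by omega)
    refine h1.trans (le_of_eq ?_)
    push_cast
    rw [Finset.card_product]
    push_cast
    rfl
  have hP0 : 0 ≤ n ^ (2 / 3 : ℝ) * (F.card : ℝ) ^ (2 / 3 : ℝ) := by positivity
  have hF0 : (0 : ℝ) ≤ F.card := Nat.cast_nonneg _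
  calc ((∑ Q ∈ F, (ptsOn (A ×ˢ B) Q).card : ℕ) : ℝ)
      ≤ n + n + ∑ m ∈ (F.filter PG).image φ, ((onG A B m).card : ℝ) := htot
    _ ≤ n + n + ((K + 1) * (n ^ (2 / 3 : ℝ) * (((F.filter PG).image φ).card : ℝ) ^ (2 / 3 : ℝ)) +
        ((F.filter PG).image φ).card) := by linarith
    _ ≤ n + n + ((K + 1) * (n ^ (2 / 3 : ℝ) * (F.card : ℝ) ^ (2 / 3 : ℝ)) + F.card) := by
        have := mul_le_mul_of_nonneg_left hpow (by linarith : (0 : ℝ) ≤ K + 1)
        linarith
    _ ≤ (K + 3) * (n ^ (2 / 3 : ℝ) * (F.card : ℝ) ^ (2 / 3 : ℝ) + n + F.card) := by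
        nlinarith [mul_nonneg hK0 hn0, mul_nonneg hK0 hF0]

end Pool.Agent.Helper60.PF
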