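import Pool.Agent.Helper60.PF.Defs

set_option autoImplicit false

namespace Pool.Agent.Helper60.PF

theorem sectorIn : SectorIn := by
  intro d N ε κ t c hc hε ht hεκ M hM u w hu hw hcl hle
  have hMpos : ∀ x : E d, x ≠ 0 → 0 < ‖M x‖ := by
    intro x hx
    have h1 := (hM x).1
    have h2 : 0 < t * ‖x‖ := mul_pos ht (norm_pos_iff.mpr hx)
    linarith
  have hMu := hMpos u hu
  have hMw := hMpos w hw
  have hMu0 : M u ≠ 0 := norm_pos_iff.mp hMu
  have hMw0 : M w ≠ 0 := norm_pos_iff.mp hMw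
  have hupos : 0 < ‖u‖ := norm_pos_iff.mpr hu
  set s : ℝ := ‖M w‖ / ‖M u‖ with hs
  have hs0 : 0 < s := div_pos hMw hMu
  have hs1 : s ≤ 1 := by rw [hs, div_le_one hMu]; exact hle
  have hdir := hc (M w) (M u) hMw0 hMu0 hcl
  -- the error vector
  have hkey : M (w - s • u) = ‖M w‖ • ((‖M w‖⁻¹ • M w) - (‖M u‖⁻¹ • M u)) := by
    rw [map_sub, map_smul, smul_sub, smul_smul, smul_smul, mul_inv_cancel₀ hMw.ne', one_smul, hs,
      div_eq_mul_inv]
  have he : ‖M (w - s • u)‖ ≤ ε * ‖M w‖ := by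
    rw [hkey, norm_smul, norm_norm, mul_comm]
    exact mul_le_mul_of_nonneg_right hdir (norm_nonneg _)
  have h3 : t * ‖w - s • u‖ ≤ ‖M (w - s • u)‖ := (hM _).1
  have h4 : ‖M w‖ = s * ‖M u‖ := by rw [hs, div_mul_cancel₀ _ hMu.ne']
  have h5 : ‖M u‖ ≤ κ * t * ‖u‖ := (hM u).2
  have h6 : t * ‖w - s • u‖ ≤ t * (s * ‖u‖) := by
    calc t * ‖w - s • u‖ ≤ ε * ‖M w‖ := h3.trans he
      _ = ε * (s * ‖M u‖) := by rw [h4]
      _ ≤ ε * (s * (κ * t * ‖u‖)) := by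
          apply mul_le_mul_of_nonneg_left _ hε
          exact mul_le_mul_of_nonneg_left h5 hs0.le
      _ = (ε * κ) * (t * (s * ‖u‖)) := by ring
      _ ≤ 1 * (t * (s * ‖u‖)) := by
          apply mul_le_mul_of_nonneg_right hεκ
          positivity
      _ = t * (s * ‖u‖) := one_mul _
  have h7 : ‖w - s • u‖ ≤ s * ‖u‖ := le_of_mul_le_mul_left h6 ht
  have h8 : w - u = (w - s • u) + (s - 1) • u := by
    rw [sub_smul, one_smul]; abel
  calc ‖w - u‖ = ‖(w - s • u) + (s - 1) • u‖ := by rw [← h8]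
    _ ≤ ‖w - s • u‖ + ‖(s - 1) • u‖ := norm_add_le _ _
    _ ≤ s * ‖u‖ + (1 - s) * ‖u‖ := by
        apply add_le_add h7
        rw [norm_smul, Real.norm_eq_abs, abs_of_nonpos (by linarith)]
        apply le_of_eq; ring
    _ = ‖u‖ := by ring

end Pool.Agent.Helper60.PF
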