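import Pool.Agent.Helper60.PF.MainPF

/-!
The notions of the result for `MP_ef0af8_co`, in a form which prints briefly.
-/

set_option autoImplicit false

namespace Pool.Agent.Helper60.PF.Stmt

/-- Euclidean space `ℝ^d`. -/
abbrev E (d : ℕ) : Type := EuclideanSpace ℝ (Fin d)

/-- The space `ℝ^d × ℝ^d`. -/
def Pt (d : ℕ) : Type := E d × E d

noncomputable instance instGroup (d : ℕ) : AddCommGroup (Pt d) :=
  inferInstanceAs (AddCommGroup (E d × E d))

noncomputable instance instModule (d : ℕ) : Module ℝ (Pt d) :=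
  inferInstanceAs (Module ℝ (E d × E d))

/-- The affine subspaces of `ℝ^d × ℝ^d`. -/
def Aff (d : ℕ) : Type := AffineSubspace ℝ (Pt d)

/-- The points of an affine subspace. -/
def pts {d : ℕ} (Q : Aff d) : Set (Pt d) := SetLike.coe (show AffineSubspace ℝ (Pt d) from Q)

/-- `Q` is a `d`-flat of `ℝ^d × ℝ^d`. -/
def IsFlat {d : ℕ} (Q : Aff d) : Prop :=
  (pts Q).Nonempty ∧
    Module.finrank ℝ (AffineSubspace.direction (show AffineSubspace ℝ (Pt d) from Q)) = d

/-- Any two distinct members of `F` meet in at most one point. -/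
def PointwiseIntersecting {d : ℕ} (F : Finset (Aff d)) : Prop :=
  ∀ Q₁ ∈ F, ∀ Q₂ ∈ F, Q₁ ≠ Q₂ → (pts Q₁ ∩ pts Q₂).Subsingleton

/-- the Euclidean distance of the first coordinates -/
noncomputable def dx {d : ℕ} (p q : Pt d) : ℝ := ‖p.1 - q.1‖

/-- the Euclidean distance of the second coordinates -/
noncomputable def dy {d : ℕ} (p q : Pt d) : ℝ := ‖p.2 - q.2‖

/-- `Q` is vertical, horizontal, or the distance of the second coordinates of any two of its points
is between `t` and `κ t` times the distance of their first coordinates, for some `t > 0`. -/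
def WellConditioned {d : ℕ} (κ : ℝ) (Q : Aff d) : Prop :=
  (∀ p ∈ pts Q, ∀ q ∈ pts Q, dx p q = 0) ∨ (∀ p ∈ pts Q, ∀ q ∈ pts Q, dy p q = 0) ∨
  ∃ t : ℝ, 0 < t ∧ ∀ p ∈ pts Q, ∀ q ∈ pts Q,
    t * dx p q ≤ dy p q ∧ dy p q ≤ κ * t * dx p q

/-- The number of incidences between the points of `A × B` and the members of `F`. -/
noncomputable def incidences {d : ℕ} (A B : Finset (E d)) (F : Finset (Aff d)) : ℕ :=
  Set.ncard {z : Pt d × Aff d | (z.1.1 ∈ A ∧ z.1.2 ∈ B) ∧ z.2 ∈ F ∧ z.1 ∈ pts z.2}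

open Classical in
theorem incidences_eq' {d : ℕ} (A B : Finset (E d)) (F : Finset (Aff d)) :
    incidences A B F = PF.incidences (A ×ˢ B) (show Finset (AffineSubspace ℝ (E d × E d)) from F)
    := by
  unfold incidences PF.incidences
  rw [← Set.ncard_coe_finset]
  apply congrArg Set.ncard
  apply Set.ext
  intro z
  constructor
  · intro h
    have h1 : (z.1.1 ∈ A ∧ z.1.2 ∈ B) ∧ z.2 ∈ F ∧ z.1 ∈ pts z.2 := h
    exact Finset.mem_coe.mpr (Finset.mem_filter.mpr
      ⟨Finset.mem_product.mpr ⟨Finset.mem_product.mpr h1.1, h1.2.1⟩, h1.2.2⟩)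
  · intro h
    have h1 := Finset.mem_filter.mp (Finset.mem_coe.mp h)
    have h2 := Finset.mem_product.mp h1.1
    have h3 := Finset.mem_product.mp h2.1
    exact ⟨h3, h2.2, h1.2⟩

theorem wc_iff {d : ℕ} (κ : ℝ) (Q : Aff d) (h : WellConditioned κ Q) :
    PF.WellConditioned κ (show AffineSubspace ℝ (E d × E d) from Q) := by
  rcases h with h | h | h
  · left
    intro p hp q hq
    have h2 : ‖p.1 - q.1‖ = 0 := h p hp q hq
    rw [norm_eq_zero, sub_eq_zero] at h2
    exact h2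
  · right; left
    intro p hp q hq
    have h2 : ‖p.2 - q.2‖ = 0 := h p hp q hq
    rw [norm_eq_zero, sub_eq_zero] at h2
    exact h2
  · right; right
    obtain ⟨t, ht, h⟩ := h
    exact ⟨t, ht, fun p hp q hq => h p hp q hq⟩

theorem main_stmt (hM : Main) (d : ℕ) (κ : ℝ) : ∃ C : ℝ, 0 < C ∧
    ∀ (A B : Finset (E d)) (F : Finset (Aff d)), (∀ Q ∈ F, IsFlat Q) →
      PointwiseIntersecting F → (∀ Q ∈ F, WellConditioned κ Q) →
      (incidences A B F : ℝ) ≤ C * (((A.card : ℝ) * B.card) ^ (2 / 3 : ℝ) *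
        (F.card : ℝ) ^ (2 / 3 : ℝ) + (A.card : ℝ) * B.card + F.card) := by
  obtain ⟨C, hC, h⟩ := hM d κ
  refine ⟨C, hC, fun A B F h1 h2 h3 => ?_⟩
  rw [incidences_eq']
  exact h A B F (fun Q hQ => h1 Q hQ) (fun Q hQ Q' hQ' hne => h2 Q hQ Q' hQ' hne)
    (fun Q hQ => wc_iff κ Q (h3 Q hQ))

end Pool.Agent.Helper60.PF.Stmt
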